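import Pool.Agent.W647.CC.Defs
set_option autoImplicit false
set_option maxHeartbeats 1000000
set_option linter.unusedSectionVars false
namespace W647.CC
open Matrix

lemma finrank_range_aux {A : Type} [Ring A] (r : A →+* ZMod 2) {m n : ℕ}
    (t : (Fin m → A) → (Fin n → A)) (T : (Fin m → ZMod 2) →ₗ[ZMod 2] (Fin n → ZMod 2))
    (hT : ∀ w, (fun j => r (t w j)) = T (fun i => r (w i)))
    (φ : (Fin n → A) →+ ℤ) (a : Fin n → ZMod 2)
    (hφ : ∀ v, ((φ v : ℤ) : ZMod 2) = ∑ i, r (v i) * a i)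
    (hk : ∀ v, φ v = 0 ↔ ∃ w, v = t w) (hs : ∃ v, φ v = 1) :
    Module.finrank (ZMod 2) (LinearMap.range T) + 1 = n := by
  let lam : (Fin n → ZMod 2) →ₗ[ZMod 2] ZMod 2 := Fintype.linearCombination (ZMod 2) a
  have hlam : ∀ x, lam x = ∑ i, x i * a i := by
    intro x
    rw [Fintype.linearCombination_apply]
    rfl
  obtain ⟨v0, hv0⟩ := hs
  have hsurj : Function.Surjective lam := by
    intro y
    refine ⟨y • (fun i => r (v0 i)), ?_⟩
    rw [map_smul, hlam, ← hφ, hv0]
    simp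
  have lift : ∀ x : Fin m → ZMod 2, ∃ w : Fin m → A, (fun i => r (w i)) = x := by
    intro x
    refine ⟨fun i => ((x i).val : A), ?_⟩
    funext i
    rw [map_natCast]
    exact ZMod.natCast_zmod_val (x i)
  have lift' : ∀ x : Fin n → ZMod 2, ∃ w : Fin n → A, (fun i => r (w i)) = x := by
    intro x
    refine ⟨fun i => ((x i).val : A), ?_⟩
    funext i
    rw [map_natCast]
    exact ZMod.natCast_zmod_val (x i)
  have hrk : LinearMap.range T = LinearMap.ker lam := by
    ext x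
    constructor
    · rintro ⟨y, rfl⟩
      obtain ⟨w, hw⟩ := lift y
      rw [LinearMap.mem_ker, hlam, ← hw, ← hT w, ← hφ, (hk (t w)).2 ⟨w, rfl⟩, Int.cast_zero]
    · intro hx
      rw [LinearMap.mem_ker, hlam] at hx
      obtain ⟨v, hv⟩ := lift' x
      have h1 : ((φ v : ℤ) : ZMod 2) = 0 := by
        rw [hφ, ← hx, ← hv]
      obtain ⟨k, hk2⟩ := (ZMod.intCast_zmod_eq_zero_iff_dvd (φ v) 2).1 h1
      have h2 : φ (v - (2 * k) • v0) = 0 := by
        rw [map_sub, map_zsmul, hv0, hk2]; simp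
      obtain ⟨w, hw⟩ := (hk _).1 h2
      refine ⟨fun i => r (w i), ?_⟩
      rw [← hT w, ← hw, ← hv]
      funext i
      have h2' : ((2 : ℤ) : ZMod 2) = 0 := by decide
      show r (v i - (2 * k) • v0 i) = r (v i)
      rw [map_sub, map_zsmul, zsmul_eq_mul, Int.cast_mul, h2', zero_mul, zero_mul, sub_zero]
  rw [hrk]
  have h3 := LinearMap.finrank_range_add_finrank_ker lam
  rw [LinearMap.range_eq_top.2 hsurj, finrank_top, Module.finrank_self,
    Module.finrank_fin_fun] at h3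
  omega

variable {G : Type} [Group G]

lemma red_smul_int (n : ℤ) (x : MonoidAlgebra ℤ G) : red G (n • x) = (n : ZMod 2) * red G x := by
  rw [map_zsmul, zsmul_eq_mul]

lemma red_of' (g : G) : red G (MonoidAlgebra.of ℤ G g) = 1 := by
  unfold red augTo
  show (MonoidAlgebra.lift ℤ (ZMod 2) G (1 : G →* ZMod 2)) (MonoidAlgebra.of ℤ G g) = 1
  rw [MonoidAlgebra.lift_of]; rfl

/-- an additive functional which is invariant up to a unit is linear modulo 2 -/
lemma mod2_lin {n : ℕ} (φ : (Fin n → MonoidAlgebra ℤ G) →+ ℤ)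
    (h : ∀ (g : G) (i : Fin n), ((φ (Pi.single i (MonoidAlgebra.of ℤ G g)) : ℤ) : ZMod 2)
      = ((φ (Pi.single i 1) : ℤ) : ZMod 2)) (v : Fin n → MonoidAlgebra ℤ G) :
    ((φ v : ℤ) : ZMod 2) = ∑ i, red G (v i) * ((φ (Pi.single i 1) : ℤ) : ZMod 2) := by
  have h1 : ∀ (i : Fin n) (a : MonoidAlgebra ℤ G),
      ((φ (Pi.single i a) : ℤ) : ZMod 2) = red G a * ((φ (Pi.single i 1) : ℤ) : ZMod 2) := by
    intro i a
    induction a using MonoidAlgebra.induction_on with
    | of g => rw [h, red_of', one_mul]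
    | add x y hx hy =>
      rw [Pi.single_add, map_add, Int.cast_add, hx, hy, map_add, add_mul]
    | smul r x hx =>
      have e : (Pi.single i (r • x) : Fin n → MonoidAlgebra ℤ G) = r • Pi.single i x := by
        rw [Pi.single_smul]
      rw [e, map_zsmul, smul_eq_mul, Int.cast_mul, hx, red_smul_int, mul_assoc]
  have h2 : v = ∑ i, Pi.single i (v i) := (Finset.univ_sum_single v).symm
  conv_lhs => rw [h2]
  rw [map_sum, Int.cast_sum]
  exact Finset.sum_congr rfl fun i _ => h1 i (v i)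

lemma rank_b1 (P : FreeRes G) :
    Module.finrank (ZMod 2) (LinearMap.range P.b1) + 1 = P.n0 := by
  refine finrank_range_aux (red G) (fun w => w ᵥ* P.d1) P.b1 ?_ P.aug _ (mod2_lin P.aug ?_)
    P.exact0 (P.aug_surj 1)
  · intro w
    funext j
    show red G ((w ᵥ* P.d1) j) = ((fun i => red G (w i)) ᵥ* P.d1.map (red G)) j
    rw [RingHom.map_vecMul]; rfl
  · intro g i
    have : (Pi.single i (MonoidAlgebra.of ℤ G g) : Fin P.n0 → MonoidAlgebra ℤ G)
        = MonoidAlgebra.of ℤ G g • Pi.single i 1 := by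
      rw [← Pi.single_smul, smul_eq_mul, mul_one]
    rw [this, P.aug_smul]

lemma rank_b3 (P : FreeRes G) (eta : (Fin P.n3 → MonoidAlgebra ℤ G) →+ ℤ) (w : G →* ℤ)
    (hs : ∃ v, eta v = 1) (hk : ∀ v, eta v = 0 ↔ ∃ b, v = P.d3 *ᵥ b)
    (hw : ∀ (g : G) v, eta (fun i => v i * MonoidAlgebra.of ℤ G g) = w g * eta v) :
    Module.finrank (ZMod 2) (LinearMap.range P.b3) + 1 = P.n3 := by
  have hw2 : ∀ g, ((w g : ℤ) : ZMod 2) = 1 := by
    intro g
    have h1 : w g * w g⁻¹ = 1 := by rw [← map_mul, mul_inv_cancel, map_one]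
    rcases Int.eq_one_or_neg_one_of_mul_eq_one h1 with h | h <;> rw [h] <;> decide
  have key := finrank_range_aux (red G) (fun b => P.d3 *ᵥ b)
    ((P.d3.map (red G)).mulVecLin) (by
      intro b
      funext j
      show red G ((P.d3 *ᵥ b) j) = ((P.d3.map (red G)) *ᵥ (fun i => red G (b i))) j
      rw [RingHom.map_mulVec]; rfl) eta _ (mod2_lin eta (by
        intro g i
        have : (Pi.single i (MonoidAlgebra.of ℤ G g) : Fin P.n3 → MonoidAlgebra ℤ G)
            = fun j => (Pi.single i 1 : Fin P.n3 → MonoidAlgebra ℤ G) j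
              * MonoidAlgebra.of ℤ G g := by
          funext j
          by_cases hj : j = i
          · subst hj; simp
          · simp [Pi.single_eq_of_ne hj]
        rw [this, hw, Int.cast_mul, hw2, one_mul])) hk hs
  have e : Module.finrank (ZMod 2) (LinearMap.range P.b3)
      = Module.finrank (ZMod 2) (LinearMap.range (P.d3.map (red G)).mulVecLin) := by
    have h1 : P.b3 = (P.d3.map (red G))ᵀ.mulVecLin := by
      apply LinearMap.ext
      intro v
      show v ᵥ* (P.d3.map (red G)) = (P.d3.map (red G))ᵀ *ᵥ v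
      rw [Matrix.mulVec_transpose]
    rw [h1]
    exact Matrix.rank_transpose (P.d3.map (red G))
  rw [e]; exact key

/-- dimension of the homology of a complex in the middle -/
lemma finrank_homology {a b c : ℕ} (f : (Fin a → ZMod 2) →ₗ[ZMod 2] (Fin b → ZMod 2))
    (g : (Fin b → ZMod 2) →ₗ[ZMod 2] (Fin c → ZMod 2)) (h : LinearMap.range f ≤ LinearMap.ker g) :
    Module.finrank (ZMod 2) (LinearMap.ker g ⧸ (LinearMap.range f).submoduleOf (LinearMap.ker g))
      + Module.finrank (ZMod 2) (LinearMap.range f) + Module.finrank (ZMod 2) (LinearMap.range g)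
      = b := by
  have h1 := Submodule.finrank_quotient_add_finrank
    ((LinearMap.range f).submoduleOf (LinearMap.ker g))
  have h2 := (Submodule.submoduleOfEquivOfLe h).finrank_eq
  have h3 := LinearMap.finrank_range_add_finrank_ker g
  rw [Module.finrank_fin_fun] at h3
  omega

lemma b_comp21 (P : FreeRes G) : LinearMap.range P.b2 ≤ LinearMap.ker P.b1 := by
  have h0 : P.d2 * P.d1 = 0 := by
    funext i
    rw [Matrix.mul_apply_eq_vecMul]
    exact (P.exact1 _).2 ⟨Pi.single i 1, by rw [Matrix.single_one_vecMul]; rfl⟩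
  rintro _ ⟨v, rfl⟩
  rw [LinearMap.mem_ker]
  show (v ᵥ* P.d2.map (red G)) ᵥ* P.d1.map (red G) = 0
  rw [Matrix.vecMul_vecMul, ← Matrix.map_mul, h0]
  simp

lemma b_comp32 (P : FreeRes G) : LinearMap.range P.b3 ≤ LinearMap.ker P.b2 := by
  have h0 : P.d3 * P.d2 = 0 := by
    funext i
    rw [Matrix.mul_apply_eq_vecMul]
    exact (P.exact2 _).2 ⟨Pi.single i 1, by rw [Matrix.single_one_vecMul]; rfl⟩
  rintro _ ⟨v, rfl⟩
  rw [LinearMap.mem_ker]
  show (v ᵥ* P.d3.map (red G)) ᵥ* P.d2.map (red G) = 0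
  rw [Matrix.vecMul_vecMul, ← Matrix.map_mul, h0]
  simp

lemma betti_rel (P : FreeRes G) (eta : (Fin P.n3 → MonoidAlgebra ℤ G) →+ ℤ) (w : G →* ℤ)
    (hs : ∃ v, eta v = 1) (hk : ∀ v, eta v = 0 ↔ ∃ b, v = P.d3 *ᵥ b)
    (hw : ∀ (g : G) v, eta (fun i => v i * MonoidAlgebra.of ℤ G g) = w g * eta v) :
    P.betti2 + (P.n1 + P.n3) = P.betti1 + (P.n0 + P.n2) := by
  have h1 := rank_b1 P
  have h3 := rank_b3 P eta w hs hk hw
  have h4 := finrank_homology P.b2 P.b1 (b_comp21 P)
  have h5 := finrank_homology P.b3 P.b2 (b_comp32 P)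
  unfold FreeRes.betti1 FreeRes.betti2 homDim
  omega

end W647.CC
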