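import Pool.Agent.W647.CC.Defs
set_option autoImplicit false
namespace W647.CC

/-- Gromov hyperbolic: finitely generated, and the word metric satisfies the four point condition. -/
def IsHyperbolic (G : Type) [Group G] : Prop :=
  ∃ (S : Finset G) (wl : G → ℕ) (δ : ℕ),
    Subgroup.closure (S : Set G) = ⊤ ∧
    (∀ g : G, wl g = sInf {n : ℕ | ∃ l : List G, l.length = n ∧
        (∀ x ∈ l, x ∈ S ∨ x⁻¹ ∈ S) ∧ l.prod = g}) ∧
    ∀ x y z w : G,
      wl (x⁻¹ * y) + wl (z⁻¹ * w) ≤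
        max (wl (x⁻¹ * z) + wl (y⁻¹ * w)) (wl (x⁻¹ * w) + wl (y⁻¹ * z)) + 2 * δ

/-- `Γ` is discrete: near `ι 1` there is no `ι γ` with `γ ≠ 1` in `Γ`. -/
def IsDiscreteIn {S X : Type} [Group S] [TopologicalSpace X] (ι : S → X) (Γ : Subgroup S) : Prop :=
  ∃ U ∈ nhds (ι 1), ∀ γ ∈ Γ, ι γ ∈ U → γ = 1

/-- `Γ` is cocompact: `S = Γ K` with `ι K` in a compact set. -/
def IsCocompactIn {S X : Type} [Group S] [TopologicalSpace X] (ι : S → X) (Γ : Subgroup S) :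
    Prop :=
  ∃ K : Set X, IsCompact K ∧ ∀ g : S, ∃ γ ∈ Γ, ι (γ * g) ∈ K

/-- `G` is isomorphic to `Γ / (Γ ∩ center)`, the image of `Γ` in `S / center`. -/
def IsoModCenter {S : Type} [Group S] (Γ : Subgroup S) (G : Type) [Group G] : Prop :=
  ∃ ψ : Γ →* G, Function.Surjective ψ ∧ ψ.ker = (Subgroup.center S).subgroupOf Γ

/-- The inclusion of `SL(2,ℂ)` into the complex `2 × 2` matrices. -/
def inclSL (g : Matrix.SpecialLinearGroup (Fin 2) ℂ) : Matrix (Fin 2) (Fin 2) ℂ := g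

/-- `G` is isomorphic to a discrete uniform subgroup of `PSL(2,ℂ)`, written as the image in
`PSL(2,ℂ)` of a discrete subgroup `Γ` of `SL(2,ℂ)` with `SL(2,ℂ) = Γ K`, `K` compact. -/
def IsUniformKleinian (G : Type) [Group G] : Prop :=
  ∃ Γ : Subgroup (Matrix.SpecialLinearGroup (Fin 2) ℂ),
    IsoModCenter Γ G ∧ IsDiscreteIn inclSL Γ ∧ IsCocompactIn inclSL Γ

end W647.CC
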