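import Pool.Agent.H832R2.Kap
set_option autoImplicit false
namespace W647.CC
open Matrix Pool.Agent.H832R2

/-- Kaplansky: the integral group ring is stably finite. -/
theorem stablyFinite (G : Type) [Group G] : IsStablyFiniteRing (MonoidAlgebra ℤ G) := by
  rw [isStablyFiniteRing_iff]
  intro n
  rw [isDedekindFiniteMonoid_iff]
  intro X Y h
  have hid : (1 - Y * X) * (1 - Y * X) = 1 - Y * X := by
    have : Y * X * (Y * X) = Y * X := by
      rw [Matrix.mul_assoc, ← Matrix.mul_assoc X, h, Matrix.one_mul]
    rw [Matrix.sub_mul, Matrix.one_mul, Matrix.mul_sub, Matrix.mul_one, this, sub_self, sub_zero]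
  have htr : trc (1 - Y * X) = 0 := by
    have h1 : trc (1 - Y * X) + trc (Y * X)
        = trc (1 : Matrix (Fin n) (Fin n) (MonoidAlgebra ℤ G)) := by
      rw [← trc_add, sub_add_cancel]
    rw [trc_comm Y X, h] at h1
    linarith
  have := kap _ hid htr
  exact (sub_eq_zero.1 this).symm

end W647.CC
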