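import Mathlib
set_option autoImplicit false
set_option maxHeartbeats 1000000
namespace W647.CC
open Matrix

section core
variable {A : Type} [Ring A]

lemma lift_mat {k n m l : ℕ} (D : Matrix (Fin n) (Fin m) A) (D' : Matrix (Fin l) (Fin n) A)
    (h : ∀ v : Fin n → A, v ᵥ* D = 0 → ∃ w : Fin l → A, v = w ᵥ* D')
    (X : Matrix (Fin k) (Fin n) A) (hX : X * D = 0) :
    ∃ Y : Matrix (Fin k) (Fin l) A, X = Y * D' := by
  have : ∀ i, ∃ w : Fin l → A, X i = w ᵥ* D' := fun i => h (X i) (by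
    have := congrFun hX i
    rw [Matrix.mul_apply_eq_vecMul] at this
    exact this)
  choose w hw using this
  refine ⟨Matrix.of w, ?_⟩
  funext i
  rw [Matrix.mul_apply_eq_vecMul, hw i]
  rfl

lemma lift_aug {k n l : ℕ} (aug : (Fin n → A) → ℤ) (D' : Matrix (Fin l) (Fin n) A)
    (h : ∀ v : Fin n → A, aug v = 0 → ∃ w : Fin l → A, v = w ᵥ* D')
    (X : Matrix (Fin k) (Fin n) A) (hX : ∀ i, aug (X i) = 0) :
    ∃ Y : Matrix (Fin k) (Fin l) A, X = Y * D' := by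
  have : ∀ i, ∃ w : Fin l → A, X i = w ᵥ* D' := fun i => h (X i) (hX i)
  choose w hw using this
  refine ⟨Matrix.of w, ?_⟩
  funext i
  rw [Matrix.mul_apply_eq_vecMul, hw i]
  rfl

/-- two additive functionals, semilinear over the augmentation, agree if they agree on unit rows -/
lemma aug_vecMul {m n : ℕ} (ε : A →+* ℤ) (aug : (Fin n → A) →+ ℤ)
    (haug : ∀ a v, aug (a • v) = ε a * aug v) (v : Fin m → A) (M : Matrix (Fin m) (Fin n) A) :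
    aug (v ᵥ* M) = ∑ i, ε (v i) * aug (M i) := by
  have : v ᵥ* M = ∑ i, v i • M i := by
    ext j
    simp [Matrix.vecMul, dotProduct, Finset.sum_apply]
  rw [this, map_sum]
  exact Finset.sum_congr rfl fun i _ => haug _ _

lemma aug_self {n : ℕ} (ε : A →+* ℤ) (aug : (Fin n → A) →+ ℤ)
    (haug : ∀ a v, aug (a • v) = ε a * aug v) (v : Fin n → A) :
    aug v = ∑ i, ε (v i) * aug ((1 : Matrix (Fin n) (Fin n) A) i) := by
  have := aug_vecMul ε aug haug v 1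
  rwa [Matrix.vecMul_one] at this

end core

section star
variable {A : Type} [Ring A] [StarRing A]

/-- all the data -/
structure Data (A : Type) [Ring A] [StarRing A] where
  ε : A →+* ℤ
  n0 : ℕ
  n1 : ℕ
  n2 : ℕ
  n3 : ℕ
  d1 : Matrix (Fin n1) (Fin n0) A
  d2 : Matrix (Fin n2) (Fin n1) A
  d3 : Matrix (Fin n3) (Fin n2) A
  aug : (Fin n0 → A) →+ ℤ
  haug : ∀ a v, aug (a • v) = ε a * aug v
  hone : ∃ v, aug v = 1
  e0 : ∀ v, aug v = 0 ↔ ∃ w, v = w ᵥ* d1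
  e1 : ∀ v, v ᵥ* d1 = 0 ↔ ∃ w, v = w ᵥ* d2
  e2 : ∀ v, v ᵥ* d2 = 0 ↔ ∃ w, v = w ᵥ* d3
  e3 : ∀ v, v ᵥ* d3 = 0 → v = 0
  eta : (Fin n3 → A) →+ ℤ
  heta : ∀ a v, eta (a • v) = ε a * eta v
  hone' : ∃ v, eta v = 1
  k0 : ∀ v, eta v = 0 ↔ ∃ w, v = w ᵥ* d3ᴴ

namespace Data
variable (D : Data A)

lemma d21 : D.d2 * D.d1 = 0 := by
  funext i
  rw [Matrix.mul_apply_eq_vecMul]
  exact (D.e1 _).2 ⟨Pi.single i 1, by rw [Matrix.single_one_vecMul]; rfl⟩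

lemma d32 : D.d3 * D.d2 = 0 := by
  funext i
  rw [Matrix.mul_apply_eq_vecMul]
  exact (D.e2 _).2 ⟨Pi.single i 1, by rw [Matrix.single_one_vecMul]; rfl⟩

lemma s12 : D.d1ᴴ * D.d2ᴴ = 0 := by
  rw [← Matrix.conjTranspose_mul, D.d21, Matrix.conjTranspose_zero]

lemma s23 : D.d2ᴴ * D.d3ᴴ = 0 := by
  rw [← Matrix.conjTranspose_mul, D.d32, Matrix.conjTranspose_zero]

lemma eta_row (i : Fin D.n2) : D.eta (D.d3ᴴ i) = 0 :=
  (D.k0 _).2 ⟨Pi.single i 1, by rw [Matrix.single_one_vecMul]; rfl⟩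

/-- a chain map from the dual complex to the resolution, of degree c -/
structure CM (c : ℤ) where
  F0 : Matrix (Fin D.n3) (Fin D.n0) A
  F1 : Matrix (Fin D.n2) (Fin D.n1) A
  F2 : Matrix (Fin D.n1) (Fin D.n2) A
  F3 : Matrix (Fin D.n0) (Fin D.n3) A
  h : ∀ v, D.aug (v ᵥ* F0) = c * D.eta v
  c1 : D.d3ᴴ * F0 = F1 * D.d1
  c2 : D.d2ᴴ * F1 = F2 * D.d2
  c3 : D.d1ᴴ * F2 = F3 * D.d3

lemma exists_cm : Nonempty (D.CM 1) := by
  obtain ⟨v0, hv0⟩ := D.hone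
  let F0 : Matrix (Fin D.n3) (Fin D.n0) A :=
    Matrix.of fun i => (D.eta ((1 : Matrix (Fin D.n3) (Fin D.n3) A) i)) • v0
  have hF0 : ∀ v, D.aug (v ᵥ* F0) = D.eta v := by
    intro v
    rw [aug_vecMul D.ε D.aug D.haug, aug_self D.ε D.eta D.heta v]
    refine Finset.sum_congr rfl fun i _ => ?_
    have : F0 i = (D.eta ((1 : Matrix (Fin D.n3) (Fin D.n3) A) i)) • v0 := rfl
    rw [this, map_zsmul, hv0]
    simp
  obtain ⟨F1, h1⟩ := lift_aug D.aug D.d1 (fun v hv => (D.e0 v).1 hv) (D.d3ᴴ * F0) (by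
    intro i
    rw [Matrix.mul_apply_eq_vecMul, hF0]
    exact D.eta_row i)
  obtain ⟨F2, h2⟩ := lift_mat D.d1 D.d2 (fun v hv => (D.e1 v).1 hv) (D.d2ᴴ * F1) (by
    rw [Matrix.mul_assoc, ← h1, ← Matrix.mul_assoc, D.s23, Matrix.zero_mul])
  obtain ⟨F3, h3⟩ := lift_mat D.d2 D.d3 (fun v hv => (D.e2 v).1 hv) (D.d1ᴴ * F2) (by
    rw [Matrix.mul_assoc, ← h2, ← Matrix.mul_assoc, D.s12, Matrix.zero_mul])
  exact ⟨⟨F0, F1, F2, F3, by intro v; rw [hF0, one_mul], h1, h2, h3⟩⟩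

/-- The conjugate transpose of a chain map of degree 1 is a chain map of degree c with c * c = 1. -/
lemma dual_cm (Φ : D.CM 1) : ∃ c : ℤ, c * c = 1 ∧ ∃ Ψ : D.CM c,
    Ψ.F0 = Φ.F3ᴴ ∧ Ψ.F1 = Φ.F2ᴴ ∧ Ψ.F2 = Φ.F1ᴴ ∧ Ψ.F3 = Φ.F0ᴴ := by
  have p1 : D.d3ᴴ * Φ.F3ᴴ = Φ.F2ᴴ * D.d1 := by
    have := congrArg Matrix.conjTranspose Φ.c3
    rw [Matrix.conjTranspose_mul, Matrix.conjTranspose_mul, Matrix.conjTranspose_conjTranspose] at this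
    exact this.symm
  have p2 : D.d2ᴴ * Φ.F2ᴴ = Φ.F1ᴴ * D.d2 := by
    have := congrArg Matrix.conjTranspose Φ.c2
    rw [Matrix.conjTranspose_mul, Matrix.conjTranspose_mul, Matrix.conjTranspose_conjTranspose] at this
    exact this.symm
  have p3 : D.d1ᴴ * Φ.F1ᴴ = Φ.F0ᴴ * D.d3 := by
    have := congrArg Matrix.conjTranspose Φ.c1
    rw [Matrix.conjTranspose_mul, Matrix.conjTranspose_mul, Matrix.conjTranspose_conjTranspose] at this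
    exact this.symm
  obtain ⟨v1, hv1⟩ := D.hone'
  set c : ℤ := D.aug (v1 ᵥ* Φ.F3ᴴ) with hc
  have hv : ∀ v, D.aug (v ᵥ* Φ.F3ᴴ) = c * D.eta v := by
    intro v
    have h0 : D.eta (v - D.eta v • v1) = 0 := by
      rw [map_sub, map_zsmul, hv1]; simp
    obtain ⟨w, hw⟩ := (D.k0 _).1 h0
    have h1 : D.aug ((v - D.eta v • v1) ᵥ* Φ.F3ᴴ) = 0 := by
      rw [hw, Matrix.vecMul_vecMul, p1, ← Matrix.vecMul_vecMul]
      exact (D.e0 _).2 ⟨_, rfl⟩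
    rw [Matrix.sub_vecMul, map_sub] at h1
    have h2 : (D.eta v • v1) ᵥ* Φ.F3ᴴ = D.eta v • (v1 ᵥ* Φ.F3ᴴ) := by
      rw [Matrix.smul_vecMul]
    rw [h2, map_zsmul, ← hc] at h1
    have : D.aug (v ᵥ* Φ.F3ᴴ) = D.eta v • c := sub_eq_zero.1 h1
    rw [this, smul_eq_mul, mul_comm]
  -- homotopy
  obtain ⟨h0, hh0⟩ := lift_aug D.aug D.d1 (fun v hv => (D.e0 v).1 hv) (Φ.F3ᴴ - c • Φ.F0) (by
    intro i
    have e1 : (Φ.F3ᴴ - c • Φ.F0) i = (Pi.single i 1 : Fin D.n3 → A) ᵥ* Φ.F3ᴴ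
        - c • ((Pi.single i 1 : Fin D.n3 → A) ᵥ* Φ.F0) := by
      rw [Matrix.single_one_vecMul, Matrix.single_one_vecMul]; rfl
    rw [e1, map_sub, map_zsmul, hv, Φ.h]
    simp)
  obtain ⟨h1, hh1⟩ := lift_mat D.d1 D.d2 (fun v hv => (D.e1 v).1 hv)
    (Φ.F2ᴴ - c • Φ.F1 - D.d3ᴴ * h0) (by
      rw [Matrix.sub_mul, Matrix.sub_mul, Matrix.mul_assoc, ← hh0, ← p1, Matrix.smul_mul, ← Φ.c1,
        Matrix.mul_sub, Matrix.mul_smul]
      abel)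
  obtain ⟨h2, hh2⟩ := lift_mat D.d2 D.d3 (fun v hv => (D.e2 v).1 hv)
    (Φ.F1ᴴ - c • Φ.F2 - D.d2ᴴ * h1) (by
      rw [Matrix.sub_mul, Matrix.sub_mul, Matrix.mul_assoc, ← hh1, ← p2, Matrix.smul_mul, ← Φ.c2,
        Matrix.mul_sub, Matrix.mul_sub, Matrix.mul_smul, ← Matrix.mul_assoc D.d2ᴴ D.d3ᴴ h0, D.s23,
        Matrix.zero_mul]
      abel)
  have hh3 : Φ.F0ᴴ - c • Φ.F3 - D.d1ᴴ * h2 = 0 := by
    have : (Φ.F0ᴴ - c • Φ.F3 - D.d1ᴴ * h2) * D.d3 = 0 := by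
      rw [Matrix.sub_mul, Matrix.sub_mul, Matrix.mul_assoc, ← hh2, ← p3, Matrix.smul_mul, ← Φ.c3,
        Matrix.mul_sub, Matrix.mul_sub, Matrix.mul_smul, ← Matrix.mul_assoc D.d1ᴴ D.d2ᴴ h1, D.s12,
        Matrix.zero_mul]
      abel
    funext i
    apply D.e3
    have := congrFun this i
    rw [Matrix.mul_apply_eq_vecMul] at this
    exact this
  have hstar : Φ.F0 = c • Φ.F3ᴴ + h2ᴴ * D.d1 := by
    have e : Φ.F0ᴴ = c • Φ.F3 + D.d1ᴴ * h2 := by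
      have := hh3
      rw [sub_sub, sub_eq_zero] at this
      exact this
    have := congrArg Matrix.conjTranspose e
    rw [Matrix.conjTranspose_conjTranspose, Matrix.conjTranspose_add, Matrix.conjTranspose_mul,
      Matrix.conjTranspose_conjTranspose, Matrix.conjTranspose_zsmul] at this
    exact this
  have hcc : c * c = 1 := by
    have h5 := Φ.h v1
    rw [hstar, Matrix.vecMul_add, map_add] at h5
    have h6 : D.aug (v1 ᵥ* (h2ᴴ * D.d1)) = 0 := by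
      rw [← Matrix.vecMul_vecMul]; exact (D.e0 _).2 ⟨_, rfl⟩
    have h7 : v1 ᵥ* (c • Φ.F3ᴴ) = c • (v1 ᵥ* Φ.F3ᴴ) := by
      rw [Matrix.vecMul_smul]
    rw [h6, h7, map_zsmul, hv, hv1] at h5
    simpa using h5
  exact ⟨c, hcc, ⟨⟨Φ.F3ᴴ, Φ.F2ᴴ, Φ.F1ᴴ, Φ.F0ᴴ, hv, p1, p2, p3⟩, rfl, rfl, rfl, rfl⟩⟩

end Data
end star
end W647.CC
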