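import Pool.Agent.W647.CC.Core
set_option autoImplicit false
set_option maxHeartbeats 1000000
namespace W647.CC
open Matrix

variable {A : Type} [Ring A] [StarRing A]
namespace Data
variable (D : Data A)

structure Con {c : ℤ} (Ψ : D.CM c) where
  α : Matrix (Fin D.n0) (Fin D.n1) A
  β : Matrix (Fin D.n0) (Fin D.n3) A
  Z1 : Matrix (Fin D.n1) (Fin D.n2) A
  W1 : Matrix (Fin D.n1) (Fin D.n2) A
  Z2 : Matrix (Fin D.n3) (Fin D.n2) A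
  W2 : Matrix (Fin D.n3) (Fin D.n2) A
  i : α * D.d1 + β * Ψ.F0 = 1
  ii : D.d1 * α + Z1 * D.d2 + W1 * Ψ.F1 = 1
  ii' : D.d1 * β = W1 * D.d3ᴴ
  iii : Ψ.F0 * α + Z2 * D.d2 + W2 * Ψ.F1 = 0
  iii' : Ψ.F0 * β - W2 * D.d3ᴴ = 1

variable {D}

lemma stepB {c : ℤ} (hc : c * c = 1) (Ψ : D.CM c) {k : ℕ} (Y : Matrix (Fin k) (Fin D.n1) A)
    (X : Matrix (Fin k) (Fin D.n3) A) (h : Y * D.d1 + X * Ψ.F0 = 0) :
    ∃ Z W : Matrix (Fin k) (Fin D.n2) A, Y = Z * D.d2 + W * Ψ.F1 ∧ X = -(W * D.d3ᴴ) := by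
  obtain ⟨W', hW'⟩ := lift_aug D.eta D.d3ᴴ (fun v hv => (D.k0 v).1 hv) X (by
    intro i
    have h1 : D.aug ((Y * D.d1 + X * Ψ.F0) i) = 0 := by rw [h]; exact map_zero _
    have h2 : (Y * D.d1 + X * Ψ.F0) i = Y i ᵥ* D.d1 + X i ᵥ* Ψ.F0 := by
      rw [← Matrix.mul_apply_eq_vecMul, ← Matrix.mul_apply_eq_vecMul]; rfl
    rw [h2, map_add, Ψ.h, (D.e0 _).2 ⟨_, rfl⟩, zero_add] at h1
    have : c * (c * D.eta (X i)) = 0 := by rw [h1, mul_zero]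
    rwa [← mul_assoc, hc, one_mul] at this)
  obtain ⟨Z, hZ⟩ := lift_mat D.d1 D.d2 (fun v hv => (D.e1 v).1 hv) (Y + W' * Ψ.F1) (by
    rw [Matrix.add_mul, Matrix.mul_assoc, ← Ψ.c1, ← Matrix.mul_assoc, ← hW', h])
  refine ⟨Z, -W', ?_, ?_⟩
  · rw [Matrix.neg_mul, ← hZ]; abel
  · rw [Matrix.neg_mul, neg_neg]; exact hW'

lemma exists_con {c : ℤ} (hc : c * c = 1) (Ψ : D.CM c) : Nonempty (D.Con Ψ) := by
  obtain ⟨v1, hv1⟩ := D.hone'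
  -- beta
  let β : Matrix (Fin D.n0) (Fin D.n3) A :=
    Matrix.of fun i => (c * D.aug ((1 : Matrix (Fin D.n0) (Fin D.n0) A) i)) • v1
  obtain ⟨α, hα⟩ := lift_aug D.aug D.d1 (fun v hv => (D.e0 v).1 hv) (1 - β * Ψ.F0) (by
    intro i
    have h2 : (1 - β * Ψ.F0 : Matrix (Fin D.n0) (Fin D.n0) A) i = (1 : Matrix (Fin D.n0) (Fin D.n0) A) i - β i ᵥ* Ψ.F0 := by
      rw [← Matrix.mul_apply_eq_vecMul]; rfl
    have h3 : β i = (c * D.aug ((1 : Matrix (Fin D.n0) (Fin D.n0) A) i)) • v1 := rfl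
    rw [h2, map_sub, Ψ.h, h3, map_zsmul, hv1, smul_eq_mul, mul_one, ← mul_assoc, hc, one_mul,
      sub_self])
  have hi : α * D.d1 + β * Ψ.F0 = 1 := by rw [← hα]; abel
  obtain ⟨Z1, W1, h1, h2⟩ := stepB hc Ψ (1 - D.d1 * α) (-(D.d1 * β)) (by
    have : (1 - D.d1 * α) * D.d1 + -(D.d1 * β) * Ψ.F0
        = D.d1 - D.d1 * (α * D.d1 + β * Ψ.F0) := by
      rw [Matrix.sub_mul, Matrix.one_mul, Matrix.neg_mul, Matrix.mul_add, Matrix.mul_assoc,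
        Matrix.mul_assoc]
      abel
    rw [this, hi, Matrix.mul_one, sub_self])
  obtain ⟨Z2, W2, h3, h4⟩ := stepB hc Ψ (-(Ψ.F0 * α)) (1 - Ψ.F0 * β) (by
    have : -(Ψ.F0 * α) * D.d1 + (1 - Ψ.F0 * β) * Ψ.F0
        = Ψ.F0 - Ψ.F0 * (α * D.d1 + β * Ψ.F0) := by
      rw [Matrix.sub_mul, Matrix.one_mul, Matrix.neg_mul, Matrix.mul_add, Matrix.mul_assoc,
        Matrix.mul_assoc]
      abel
    rw [this, hi, Matrix.mul_one, sub_self])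
  refine ⟨⟨α, β, Z1, W1, Z2, W2, hi, ?_, ?_, ?_, ?_⟩⟩
  · rw [add_assoc, ← h1]; abel
  · exact neg_injective h2
  · rw [add_assoc, ← h3]; abel
  · have : W2 * D.d3ᴴ = -(1 - Ψ.F0 * β) := by rw [h4, neg_neg]
    rw [this]; abel

end Data
end W647.CC
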