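import Pool.Agent.W647.CC.Core2
set_option autoImplicit false
set_option maxHeartbeats 1000000
set_option linter.unusedSectionVars false
set_option linter.unusedSimpArgs false
namespace W647.CC
open Matrix

variable {A : Type} [Ring A] [StarRing A]

/-- all matrix identities needed -/
structure Ids (A : Type) [Ring A] (n0 n1 n2 n3 : ℕ) where
  d1 : Matrix (Fin n1) (Fin n0) A
  d2 : Matrix (Fin n2) (Fin n1) A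
  d3 : Matrix (Fin n3) (Fin n2) A
  t1 : Matrix (Fin n0) (Fin n1) A
  t2 : Matrix (Fin n1) (Fin n2) A
  t3 : Matrix (Fin n2) (Fin n3) A
  F0 : Matrix (Fin n3) (Fin n0) A
  F1 : Matrix (Fin n2) (Fin n1) A
  F2 : Matrix (Fin n1) (Fin n2) A
  F3 : Matrix (Fin n0) (Fin n3) A
  α : Matrix (Fin n0) (Fin n1) A
  β : Matrix (Fin n0) (Fin n3) A
  Z1 : Matrix (Fin n1) (Fin n2) A
  W1 : Matrix (Fin n1) (Fin n2) A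
  Z2 : Matrix (Fin n3) (Fin n2) A
  W2 : Matrix (Fin n3) (Fin n2) A
  S : Matrix (Fin n3) (Fin n0) A
  T : Matrix (Fin n1) (Fin n0) A
  A11 : Matrix (Fin n2) (Fin n3) A
  A21 : Matrix (Fin n2) (Fin n3) A
  A12 : Matrix (Fin n2) (Fin n1) A
  A22 : Matrix (Fin n2) (Fin n1) A
  d21 : d2 * d1 = 0
  d32 : d3 * d2 = 0
  s12 : t1 * t2 = 0
  s23 : t2 * t3 = 0
  c1 : t3 * F0 = F1 * d1
  c2 : t2 * F1 = F2 * d2
  c3 : t1 * F2 = F3 * d3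
  i : α * d1 + β * F0 = 1
  ii : d1 * α + Z1 * d2 + W1 * F1 = 1
  ii' : d1 * β = W1 * t3
  iii : F0 * α + Z2 * d2 + W2 * F1 = 0
  iii' : F0 * β - W2 * t3 = 1
  u0 : F3 * S - t1 * T = 1
  u1 : d3 * A11 + S * F3 = 1
  u2 : F2 * A11 - t2 * A21 + T * F3 = 0
  u3 : d3 * A12 - S * t1 = 0
  u4 : F2 * A12 - t2 * A22 - T * t1 = 1

namespace Data
variable (D : Data A)

lemma exists_ids : ∃ I : Ids A D.n0 D.n1 D.n2 D.n3, I.d1 = D.d1 ∧ I.d2 = D.d2 ∧ I.d3 = D.d3 ∧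
    I.t1 = D.d1ᴴ ∧ I.t2 = D.d2ᴴ ∧ I.t3 = D.d3ᴴ := by
  obtain ⟨Φ⟩ := D.exists_cm
  obtain ⟨c, hc, Ψ, g0, g1, g2, g3⟩ := D.dual_cm Φ
  obtain ⟨K⟩ := exists_con (by norm_num) Φ
  obtain ⟨L⟩ := exists_con hc Ψ
  have i1 := congrArg Matrix.conjTranspose L.i
  have i2 := congrArg Matrix.conjTranspose L.ii
  have i3 := congrArg Matrix.conjTranspose L.ii'
  have i4 := congrArg Matrix.conjTranspose L.iii
  have i5 := congrArg Matrix.conjTranspose L.iii'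
  simp only [Matrix.conjTranspose_add, Matrix.conjTranspose_sub, Matrix.conjTranspose_mul,
    Matrix.conjTranspose_one, Matrix.conjTranspose_zero, g0, g1,
    Matrix.conjTranspose_conjTranspose] at i1 i2 i3 i4 i5
  refine ⟨⟨D.d1, D.d2, D.d3, D.d1ᴴ, D.d2ᴴ, D.d3ᴴ, Φ.F0, Φ.F1, Φ.F2, Φ.F3, K.α, K.β, K.Z1, K.W1,
    K.Z2, K.W2, L.βᴴ, -L.αᴴ, -L.W2ᴴ, L.Z2ᴴ, L.W1ᴴ, -L.Z1ᴴ, D.d21, D.d32, D.s12, D.s23, Φ.c1,
    Φ.c2, Φ.c3, K.i, K.ii, K.ii', K.iii, K.iii', ?_, ?_, ?_, ?_, ?_⟩, rfl, rfl, rfl, rfl, rfl, rfl⟩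
  · rw [Matrix.mul_neg, ← i1]; abel
  · rw [Matrix.mul_neg, ← i5]; abel
  · rw [Matrix.mul_neg, Matrix.neg_mul, ← neg_eq_zero, ← i4]; abel
  · rw [← i3, sub_self]
  · rw [Matrix.mul_neg, Matrix.neg_mul, ← i2]; abel

end Data

namespace Ids
variable {n0 n1 n2 n3 : ℕ} (I : Ids A n0 n1 n2 n3)

abbrev E (A : Type) (n0 n2 : ℕ) :=
  (Fin n0 → A) × (Fin n2 → A) × (Fin n2 → A) × (Fin n0 → A)

abbrev O (A : Type) (n1 n3 : ℕ) :=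
  (Fin n1 → A) × (Fin n3 → A) × (Fin n3 → A) × (Fin n1 → A)

def F : E A n0 n2 →ₗ[A] O A n1 n3 where
  toFun t := (t.2.1 ᵥ* I.d2 + t.2.2.1 ᵥ* I.F1 + t.2.2.2 ᵥ* I.α,
    -(t.2.2.1 ᵥ* I.t3) + t.2.2.2 ᵥ* I.β,
    t.2.1 ᵥ* I.A11 + t.2.2.1 ᵥ* I.A21 + t.1 ᵥ* I.F3,
    t.2.1 ᵥ* I.A12 + t.2.2.1 ᵥ* I.A22 - t.1 ᵥ* I.t1)
  map_add' s t := by
    refine Prod.ext ?_ (Prod.ext ?_ (Prod.ext ?_ ?_)) <;>
      simp only [Prod.fst_add, Prod.snd_add, Matrix.add_vecMul] <;> abel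
  map_smul' a t := by
    refine Prod.ext ?_ (Prod.ext ?_ (Prod.ext ?_ ?_)) <;>
      simp only [Prod.smul_fst, Prod.smul_snd, Matrix.smul_vecMul, smul_add, smul_sub, smul_neg,
        RingHom.id_apply]

lemma F_surj : Function.Surjective I.F := by
  rintro ⟨y, x, p, r⟩
  set z1 := y ᵥ* I.Z1 + x ᵥ* I.Z2 with hz1
  set w1 := y ᵥ* I.W1 + x ᵥ* I.W2 with hw1
  set p' := p - (z1 ᵥ* I.A11 + w1 ᵥ* I.A21) with hp'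
  set r' := r - (z1 ᵥ* I.A12 + w1 ᵥ* I.A22) with hr'
  refine ⟨(p' ᵥ* I.S + r' ᵥ* I.T, z1 + (p' ᵥ* I.d3 + r' ᵥ* I.F2), w1 - r' ᵥ* I.t2,
    y ᵥ* I.d1 + x ᵥ* I.F0), ?_⟩
  refine Prod.ext ?_ (Prod.ext ?_ (Prod.ext ?_ ?_))
  · show (z1 + (p' ᵥ* I.d3 + r' ᵥ* I.F2)) ᵥ* I.d2 + (w1 - r' ᵥ* I.t2) ᵥ* I.F1
      + (y ᵥ* I.d1 + x ᵥ* I.F0) ᵥ* I.α = y
    have e : (z1 + (p' ᵥ* I.d3 + r' ᵥ* I.F2)) ᵥ* I.d2 + (w1 - r' ᵥ* I.t2) ᵥ* I.F1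
      + (y ᵥ* I.d1 + x ᵥ* I.F0) ᵥ* I.α
      = y ᵥ* (I.d1 * I.α + I.Z1 * I.d2 + I.W1 * I.F1)
        + x ᵥ* (I.F0 * I.α + I.Z2 * I.d2 + I.W2 * I.F1)
        + p' ᵥ* (I.d3 * I.d2) + r' ᵥ* (I.F2 * I.d2 - I.t2 * I.F1) := by
      rw [hz1, hw1]
      simp only [Matrix.add_vecMul, Matrix.sub_vecMul, Matrix.vecMul_add, Matrix.vecMul_sub,
        Matrix.vecMul_vecMul]
      abel
    rw [e, I.ii, I.iii, I.d32, I.c2, sub_self]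
    simp
  · show -((w1 - r' ᵥ* I.t2) ᵥ* I.t3) + (y ᵥ* I.d1 + x ᵥ* I.F0) ᵥ* I.β = x
    have e : -((w1 - r' ᵥ* I.t2) ᵥ* I.t3) + (y ᵥ* I.d1 + x ᵥ* I.F0) ᵥ* I.β
      = y ᵥ* (I.d1 * I.β - I.W1 * I.t3) + x ᵥ* (I.F0 * I.β - I.W2 * I.t3)
        + r' ᵥ* (I.t2 * I.t3) := by
      rw [hw1]
      simp only [Matrix.add_vecMul, Matrix.sub_vecMul, Matrix.vecMul_add, Matrix.vecMul_sub,
        Matrix.vecMul_vecMul]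
      abel
    rw [e, I.ii', I.iii', I.s23, sub_self]
    simp
  · show (z1 + (p' ᵥ* I.d3 + r' ᵥ* I.F2)) ᵥ* I.A11 + (w1 - r' ᵥ* I.t2) ᵥ* I.A21
      + (p' ᵥ* I.S + r' ᵥ* I.T) ᵥ* I.F3 = p
    have e : (z1 + (p' ᵥ* I.d3 + r' ᵥ* I.F2)) ᵥ* I.A11 + (w1 - r' ᵥ* I.t2) ᵥ* I.A21
      + (p' ᵥ* I.S + r' ᵥ* I.T) ᵥ* I.F3
      = z1 ᵥ* I.A11 + w1 ᵥ* I.A21 + p' ᵥ* (I.d3 * I.A11 + I.S * I.F3)
        + r' ᵥ* (I.F2 * I.A11 - I.t2 * I.A21 + I.T * I.F3) := by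
      simp only [Matrix.add_vecMul, Matrix.sub_vecMul, Matrix.vecMul_add, Matrix.vecMul_sub,
        Matrix.vecMul_vecMul]
      abel
    rw [e, I.u1, I.u2, Matrix.vecMul_one, Matrix.vecMul_zero, hp']
    abel
  · show (z1 + (p' ᵥ* I.d3 + r' ᵥ* I.F2)) ᵥ* I.A12 + (w1 - r' ᵥ* I.t2) ᵥ* I.A22
      - (p' ᵥ* I.S + r' ᵥ* I.T) ᵥ* I.t1 = r
    have e : (z1 + (p' ᵥ* I.d3 + r' ᵥ* I.F2)) ᵥ* I.A12 + (w1 - r' ᵥ* I.t2) ᵥ* I.A22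
      - (p' ᵥ* I.S + r' ᵥ* I.T) ᵥ* I.t1
      = z1 ᵥ* I.A12 + w1 ᵥ* I.A22 + p' ᵥ* (I.d3 * I.A12 - I.S * I.t1)
        + r' ᵥ* (I.F2 * I.A12 - I.t2 * I.A22 - I.T * I.t1) := by
      simp only [Matrix.add_vecMul, Matrix.sub_vecMul, Matrix.vecMul_add, Matrix.vecMul_sub,
        Matrix.vecMul_vecMul]
      abel
    rw [e, I.u3, I.u4, Matrix.vecMul_one, Matrix.vecMul_zero, hr']
    abel

/-- if F is injective then the dual complex is exact at degree 1 -/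
lemma exact_of_inj (hF : Function.Injective I.F)
    (e1 : ∀ v, v ᵥ* I.d1 = 0 → ∃ w, v = w ᵥ* I.d2)
    (w : Fin n2 → A) (hw : w ᵥ* I.t3 = 0) : ∃ r, w = r ᵥ* I.t2 := by
  obtain ⟨z0, hz0⟩ := e1 (w ᵥ* I.F1) (by
    rw [Matrix.vecMul_vecMul, ← I.c1, ← Matrix.vecMul_vecMul, hw, Matrix.zero_vecMul])
  set z := -z0 with hz
  have hzw : z ᵥ* I.d2 + w ᵥ* I.F1 = 0 := by
    rw [hz, Matrix.neg_vecMul, ← hz0]; abel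
  set p := z ᵥ* I.A11 + w ᵥ* I.A21 with hp
  set r := z ᵥ* I.A12 + w ᵥ* I.A22 with hr
  have key : I.F (-(p ᵥ* I.S + r ᵥ* I.T), z - (p ᵥ* I.d3 + r ᵥ* I.F2), w + r ᵥ* I.t2, 0) = 0 := by
    refine Prod.ext ?_ (Prod.ext ?_ (Prod.ext ?_ ?_))
    · show (z - (p ᵥ* I.d3 + r ᵥ* I.F2)) ᵥ* I.d2 + (w + r ᵥ* I.t2) ᵥ* I.F1 + 0 ᵥ* I.α = 0
      have e : (z - (p ᵥ* I.d3 + r ᵥ* I.F2)) ᵥ* I.d2 + (w + r ᵥ* I.t2) ᵥ* I.F1 + 0 ᵥ* I.α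
        = (z ᵥ* I.d2 + w ᵥ* I.F1) - p ᵥ* (I.d3 * I.d2) - r ᵥ* (I.F2 * I.d2 - I.t2 * I.F1) := by
        simp only [Matrix.add_vecMul, Matrix.sub_vecMul, Matrix.vecMul_add, Matrix.vecMul_sub,
          Matrix.vecMul_vecMul, Matrix.zero_vecMul]
        abel
      rw [e, hzw, I.d32, I.c2, sub_self]; simp
    · show -((w + r ᵥ* I.t2) ᵥ* I.t3) + 0 ᵥ* I.β = 0
      have e : -((w + r ᵥ* I.t2) ᵥ* I.t3) + 0 ᵥ* I.β = -(w ᵥ* I.t3) - r ᵥ* (I.t2 * I.t3) := by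
        simp only [Matrix.add_vecMul, Matrix.vecMul_vecMul, Matrix.zero_vecMul]
        abel
      rw [e, hw, I.s23]; simp
    · show (z - (p ᵥ* I.d3 + r ᵥ* I.F2)) ᵥ* I.A11 + (w + r ᵥ* I.t2) ᵥ* I.A21
        + (-(p ᵥ* I.S + r ᵥ* I.T)) ᵥ* I.F3 = 0
      have e : (z - (p ᵥ* I.d3 + r ᵥ* I.F2)) ᵥ* I.A11 + (w + r ᵥ* I.t2) ᵥ* I.A21
        + (-(p ᵥ* I.S + r ᵥ* I.T)) ᵥ* I.F3
        = (z ᵥ* I.A11 + w ᵥ* I.A21) - p ᵥ* (I.d3 * I.A11 + I.S * I.F3)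
          - r ᵥ* (I.F2 * I.A11 - I.t2 * I.A21 + I.T * I.F3) := by
        simp only [Matrix.add_vecMul, Matrix.sub_vecMul, Matrix.vecMul_add, Matrix.vecMul_sub,
          Matrix.vecMul_vecMul, Matrix.neg_vecMul]
        abel
      rw [e, I.u1, I.u2, ← hp]; simp
    · show (z - (p ᵥ* I.d3 + r ᵥ* I.F2)) ᵥ* I.A12 + (w + r ᵥ* I.t2) ᵥ* I.A22
        - (-(p ᵥ* I.S + r ᵥ* I.T)) ᵥ* I.t1 = 0
      have e : (z - (p ᵥ* I.d3 + r ᵥ* I.F2)) ᵥ* I.A12 + (w + r ᵥ* I.t2) ᵥ* I.A22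
        - (-(p ᵥ* I.S + r ᵥ* I.T)) ᵥ* I.t1
        = (z ᵥ* I.A12 + w ᵥ* I.A22) - p ᵥ* (I.d3 * I.A12 - I.S * I.t1)
          - r ᵥ* (I.F2 * I.A12 - I.t2 * I.A22 - I.T * I.t1) := by
        simp only [Matrix.add_vecMul, Matrix.sub_vecMul, Matrix.vecMul_add, Matrix.vecMul_sub,
          Matrix.vecMul_vecMul, Matrix.neg_vecMul]
        abel
      rw [e, I.u3, I.u4, ← hr]; simp
  have h0 := hF (key.trans (map_zero I.F).symm)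
  have h1 : w + r ᵥ* I.t2 = 0 := congrArg (fun t => t.2.2.1) h0
  exact ⟨-r, by rw [Matrix.neg_vecMul]; exact eq_neg_of_add_eq_zero_left h1⟩

/-- if the dual complex is exact in degree 1 then F is injective -/
lemma inj_of_exact
    (e2 : ∀ v, v ᵥ* I.d2 = 0 → ∃ w, v = w ᵥ* I.d3)
    (hx : ∀ w : Fin n2 → A, w ᵥ* I.t3 = 0 → ∃ r, w = r ᵥ* I.t2) : Function.Injective I.F := by
  rw [injective_iff_map_eq_zero]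
  rintro ⟨q, z, w, u⟩ h
  have a1 : z ᵥ* I.d2 + w ᵥ* I.F1 + u ᵥ* I.α = 0 := congrArg (fun t => t.1) h
  have a2 : -(w ᵥ* I.t3) + u ᵥ* I.β = 0 := congrArg (fun t => t.2.1) h
  have a3 : z ᵥ* I.A11 + w ᵥ* I.A21 + q ᵥ* I.F3 = 0 := congrArg (fun t => t.2.2.1) h
  have a4 : z ᵥ* I.A12 + w ᵥ* I.A22 - q ᵥ* I.t1 = 0 := congrArg (fun t => t.2.2.2) h
  have hu : u = 0 := by
    have e : u = (z ᵥ* I.d2 + w ᵥ* I.F1 + u ᵥ* I.α) ᵥ* I.d1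
        + (-(w ᵥ* I.t3) + u ᵥ* I.β) ᵥ* I.F0 := by
      have e1 : (z ᵥ* I.d2 + w ᵥ* I.F1 + u ᵥ* I.α) ᵥ* I.d1
        + (-(w ᵥ* I.t3) + u ᵥ* I.β) ᵥ* I.F0
        = u ᵥ* (I.α * I.d1 + I.β * I.F0) + z ᵥ* (I.d2 * I.d1)
          - w ᵥ* (I.t3 * I.F0 - I.F1 * I.d1) := by
        simp only [Matrix.add_vecMul, Matrix.sub_vecMul, Matrix.vecMul_add, Matrix.vecMul_sub,
          Matrix.vecMul_vecMul, Matrix.neg_vecMul]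
        abel
      rw [e1, I.i, I.d21, I.c1, sub_self]; simp
    rw [e, a1, a2]; simp
  subst hu
  have b2 : w ᵥ* I.t3 = 0 := by simpa using a2
  have b1 : z ᵥ* I.d2 + w ᵥ* I.F1 = 0 := by simpa using a1
  obtain ⟨r1, hr1⟩ := hx w b2
  obtain ⟨p0, hp0⟩ := e2 (z + r1 ᵥ* I.F2) (by
    rw [Matrix.add_vecMul, Matrix.vecMul_vecMul, ← I.c2, ← Matrix.vecMul_vecMul, ← hr1, b1])
  -- z = p0 d3 - r1 F2, w = r1 t2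
  have hz : z = p0 ᵥ* I.d3 - r1 ᵥ* I.F2 := by rw [← hp0]; abel
  set q1 := p0 ᵥ* I.S - r1 ᵥ* I.T - q with hq1
  have f3 : p0 = q1 ᵥ* I.F3 := by
    have e : z ᵥ* I.A11 + w ᵥ* I.A21 + q ᵥ* I.F3
        = p0 ᵥ* (I.d3 * I.A11 + I.S * I.F3) - r1 ᵥ* (I.F2 * I.A11 - I.t2 * I.A21 + I.T * I.F3)
          - q1 ᵥ* I.F3 := by
      rw [hz, hr1, hq1]
      simp only [Matrix.add_vecMul, Matrix.sub_vecMul, Matrix.vecMul_add, Matrix.vecMul_sub,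
        Matrix.vecMul_vecMul]
      abel
    rw [a3, I.u1, I.u2, Matrix.vecMul_one, Matrix.vecMul_zero, sub_zero] at e
    exact (sub_eq_zero.1 e.symm)
  have f4 : r1 = q1 ᵥ* I.t1 := by
    have e : z ᵥ* I.A12 + w ᵥ* I.A22 - q ᵥ* I.t1
        = p0 ᵥ* (I.d3 * I.A12 - I.S * I.t1) - r1 ᵥ* (I.F2 * I.A12 - I.t2 * I.A22 - I.T * I.t1)
          + q1 ᵥ* I.t1 := by
      rw [hz, hr1, hq1]
      simp only [Matrix.add_vecMul, Matrix.sub_vecMul, Matrix.vecMul_add, Matrix.vecMul_sub,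
        Matrix.vecMul_vecMul]
      abel
    rw [a4, I.u3, I.u4, Matrix.vecMul_one, Matrix.vecMul_zero, zero_sub] at e
    have : r1 = q1 ᵥ* I.t1 := by
      have := e.symm
      rwa [neg_add_eq_zero] at this
    exact this
  have hz0 : z = 0 := by
    rw [hz, f3, f4, Matrix.vecMul_vecMul, Matrix.vecMul_vecMul, I.c3, sub_self]
  have hw0 : w = 0 := by
    rw [hr1, f4, Matrix.vecMul_vecMul, I.s12, Matrix.vecMul_zero]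
  subst hz0 hw0
  have g3 : q ᵥ* I.F3 = 0 := by simpa using a3
  have g4 : q ᵥ* I.t1 = 0 := by simpa using a4
  have hq : q = 0 := by
    have e : q = q ᵥ* (I.F3 * I.S - I.t1 * I.T) := by rw [I.u0, Matrix.vecMul_one]
    rw [e, Matrix.vecMul_sub, ← Matrix.vecMul_vecMul, ← Matrix.vecMul_vecMul, g3, g4]; simp
  subst hq
  rfl

end Ids
end W647.CC
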