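import Pool.Agent.W647.CC.Core3
set_option autoImplicit false
set_option maxHeartbeats 1000000
set_option linter.unusedSectionVars false
namespace W647.CC
open Matrix

variable {A : Type} [Ring A] [StarRing A]

noncomputable def eE (A : Type) [Ring A] (n0 n2 : ℕ) :
    Ids.E A n0 n2 ≃ₗ[A] (Fin (2 * (n0 + n2)) → A) :=
  ((LinearEquiv.refl A (Fin n0 → A)).prodCongr
    ((LinearEquiv.refl A (Fin n2 → A)).prodCongr
      (LinearEquiv.sumArrowLequivProdArrow (Fin n2) (Fin n0) A A).symm)).trans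
  (((LinearEquiv.refl A (Fin n0 → A)).prodCongr
    (LinearEquiv.sumArrowLequivProdArrow (Fin n2) (Fin n2 ⊕ Fin n0) A A).symm).trans
  ((LinearEquiv.sumArrowLequivProdArrow (Fin n0) (Fin n2 ⊕ (Fin n2 ⊕ Fin n0)) A A).symm.trans
  (LinearEquiv.funCongrLeft A A (Fintype.equivOfCardEq (by
    simp only [Fintype.card_sum, Fintype.card_fin]; ring)))))

noncomputable def eO (A : Type) [Ring A] (n1 n3 : ℕ) :
    Ids.O A n1 n3 ≃ₗ[A] (Fin (2 * (n1 + n3)) → A) :=
  ((LinearEquiv.refl A (Fin n1 → A)).prodCongr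
    ((LinearEquiv.refl A (Fin n3 → A)).prodCongr
      (LinearEquiv.sumArrowLequivProdArrow (Fin n3) (Fin n1) A A).symm)).trans
  (((LinearEquiv.refl A (Fin n1 → A)).prodCongr
    (LinearEquiv.sumArrowLequivProdArrow (Fin n3) (Fin n3 ⊕ Fin n1) A A).symm).trans
  ((LinearEquiv.sumArrowLequivProdArrow (Fin n1) (Fin n3 ⊕ (Fin n3 ⊕ Fin n1)) A A).symm.trans
  (LinearEquiv.funCongrLeft A A (Fintype.equivOfCardEq (by
    simp only [Fintype.card_sum, Fintype.card_fin]; ring)))))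

lemma inj_of_surj_of_eq [IsStablyFiniteRing A] {m n : ℕ} (h : m = n)
    (f : (Fin m → A) →ₗ[A] (Fin n → A)) (hf : Function.Surjective f) : Function.Injective f := by
  subst h
  exact Module.End.injective_of_surjective_fin hf

namespace Data
variable (D : Data A)

lemma exact0 (v : Fin D.n0 → A) (hv : v ᵥ* D.d1ᴴ = 0) : v = 0 := by
  obtain ⟨I, h1, h2, h3, h4, h5, h6⟩ := D.exists_ids
  have hv' : v ᵥ* I.t1 = 0 := by rw [h4]; exact hv
  have g3 : v ᵥ* I.F3 = 0 := by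
    apply D.e3
    rw [← h3, Matrix.vecMul_vecMul, ← I.c3, ← Matrix.vecMul_vecMul, hv', Matrix.zero_vecMul]
  have e : v = v ᵥ* (I.F3 * I.S - I.t1 * I.T) := by rw [I.u0, Matrix.vecMul_one]
  rw [e, Matrix.vecMul_sub, ← Matrix.vecMul_vecMul, ← Matrix.vecMul_vecMul, g3, hv']; simp

lemma exact1 (v : Fin D.n1 → A) (hv : v ᵥ* D.d2ᴴ = 0) : ∃ w, v = w ᵥ* D.d1ᴴ := by
  obtain ⟨I, h1, h2, h3, h4, h5, h6⟩ := D.exists_ids
  have hv' : v ᵥ* I.t2 = 0 := by rw [h5]; exact hv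
  obtain ⟨u, hu⟩ := (D.e2 (v ᵥ* I.F2)).1 (by
    rw [← h2, Matrix.vecMul_vecMul, ← I.c2, ← Matrix.vecMul_vecMul, hv', Matrix.zero_vecMul])
  rw [← h3] at hu
  -- 1 = F2 A12 - t2 A22 - T t1
  refine ⟨u ᵥ* I.S - v ᵥ* I.T, ?_⟩
  have e : v = v ᵥ* (I.F2 * I.A12 - I.t2 * I.A22 - I.T * I.t1) := by
    rw [I.u4, Matrix.vecMul_one]
  have e3 : u ᵥ* (I.d3 * I.A12) = u ᵥ* (I.S * I.t1) := by
    have := I.u3
    rw [sub_eq_zero] at this
    rw [this]
  rw [← h4]
  calc v = v ᵥ* (I.F2 * I.A12 - I.t2 * I.A22 - I.T * I.t1) := e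
    _ = (v ᵥ* I.F2) ᵥ* I.A12 - (v ᵥ* I.t2) ᵥ* I.A22 - v ᵥ* (I.T * I.t1) := by
        rw [Matrix.vecMul_sub, Matrix.vecMul_sub, ← Matrix.vecMul_vecMul, ← Matrix.vecMul_vecMul]
    _ = u ᵥ* (I.S * I.t1) - v ᵥ* (I.T * I.t1) := by
        rw [hu, hv', Matrix.zero_vecMul, sub_zero, Matrix.vecMul_vecMul, e3]
    _ = (u ᵥ* I.S - v ᵥ* I.T) ᵥ* I.t1 := by
        rw [Matrix.sub_vecMul, Matrix.vecMul_vecMul, Matrix.vecMul_vecMul]

lemma rank_le [Nontrivial A] [IsStablyFiniteRing A] : D.n1 + D.n3 ≤ D.n0 + D.n2 := by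
  obtain ⟨I, h1, h2, h3, h4, h5, h6⟩ := D.exists_ids
  let f : (Fin (2 * (D.n0 + D.n2)) → A) →ₗ[A] (Fin (2 * (D.n1 + D.n3)) → A) :=
    (eO A D.n1 D.n3).toLinearMap ∘ₗ I.F ∘ₗ (eE A D.n0 D.n2).symm.toLinearMap
  have hf : Function.Surjective f :=
    (eO A D.n1 D.n3).surjective.comp (I.F_surj.comp (eE A D.n0 D.n2).symm.surjective)
  have := le_of_fin_surjective A f hf
  omega

lemma exact2_iff [Nontrivial A] [IsStablyFiniteRing A] :
    (∀ v : Fin D.n2 → A, v ᵥ* D.d3ᴴ = 0 → ∃ w, v = w ᵥ* D.d2ᴴ) ↔ D.n0 + D.n2 = D.n1 + D.n3 := by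
  obtain ⟨I, h1, h2, h3, h4, h5, h6⟩ := D.exists_ids
  let f : (Fin (2 * (D.n0 + D.n2)) → A) →ₗ[A] (Fin (2 * (D.n1 + D.n3)) → A) :=
    (eO A D.n1 D.n3).toLinearMap ∘ₗ I.F ∘ₗ (eE A D.n0 D.n2).symm.toLinearMap
  have hf : Function.Surjective f :=
    (eO A D.n1 D.n3).surjective.comp (I.F_surj.comp (eE A D.n0 D.n2).symm.surjective)
  constructor
  · intro hx
    have hinj : Function.Injective I.F := I.inj_of_exact
      (fun v hv => by
        have := (D.e2 v).1 (by rw [← h2]; exact hv)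
        rwa [← h3] at this)
      (fun w hw => by
        have := hx w (by rw [← h6]; exact hw)
        rwa [← h5] at this)
    have hfi : Function.Injective f :=
      (eO A D.n1 D.n3).injective.comp (hinj.comp (eE A D.n0 D.n2).symm.injective)
    have := card_eq_of_linearEquiv A (LinearEquiv.ofBijective f ⟨hfi, hf⟩)
    simp only [Fintype.card_fin] at this
    omega
  · intro hn v hv
    have hfi : Function.Injective f := inj_of_surj_of_eq (by rw [hn]) f hf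
    have hinj : Function.Injective I.F := by
      intro a b hab
      have h7 : f (eE A D.n0 D.n2 a) = f (eE A D.n0 D.n2 b) := by
        simp only [f, LinearMap.comp_apply, LinearEquiv.coe_coe, LinearEquiv.symm_apply_apply, hab]
      exact (eE A D.n0 D.n2).injective (hfi h7)
    have := I.exact_of_inj hinj (fun v hv => by
        have := (D.e1 v).1 (by rw [← h1]; exact hv)
        rwa [← h2] at this) v (by rw [h6]; exact hv)
    rwa [h5] at this

end Data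
end W647.CC
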