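import Mathlib
set_option autoImplicit false
namespace W647.CC
open Matrix

/-- A finite free resolution of length three of the trivial `ℤ[G]`-module `ℤ` by left modules of
row vectors: the sequence
`0 → ℤ[G]^n3 → ℤ[G]^n2 → ℤ[G]^n1 → ℤ[G]^n0 → ℤ → 0` (maps `v ↦ v d3, v d2, v d1` and `aug`)
is exact and `aug` is invariant under `G`. -/
structure FreeRes (G : Type) [Group G] where
  n0 : ℕ
  n1 : ℕ
  n2 : ℕ
  n3 : ℕ
  d1 : Matrix (Fin n1) (Fin n0) (MonoidAlgebra ℤ G)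
  d2 : Matrix (Fin n2) (Fin n1) (MonoidAlgebra ℤ G)
  d3 : Matrix (Fin n3) (Fin n2) (MonoidAlgebra ℤ G)
  aug : (Fin n0 → MonoidAlgebra ℤ G) →+ ℤ
  aug_smul : ∀ (g : G) (v : Fin n0 → MonoidAlgebra ℤ G),
    aug (MonoidAlgebra.of ℤ G g • v) = aug v
  aug_surj : Function.Surjective aug
  exact0 : ∀ v, aug v = 0 ↔ ∃ w, v = w ᵥ* d1
  exact1 : ∀ v, v ᵥ* d1 = 0 ↔ ∃ w, v = w ᵥ* d2
  exact2 : ∀ v, v ᵥ* d2 = 0 ↔ ∃ w, v = w ᵥ* d3
  exact3 : ∀ v, v ᵥ* d3 = 0 → v = 0

/-- The coboundary map `c ↦ M c`.  A `ℤ[G]`-linear map from row vectors to `ℤ[G]` is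
`v ↦ v c` for a unique column `c`, and composing it with `w ↦ w M` gives `M c`. -/
def cob {m n : ℕ} {A : Type} [Ring A] (M : Matrix (Fin m) (Fin n) A) :
    (Fin n → A) →+ (Fin m → A) where
  toFun c := M *ᵥ c
  map_zero' := Matrix.mulVec_zero M
  map_add' := Matrix.mulVec_add M

/-- The ring homomorphism `ℤ[G] → R`, sum of the coefficients. -/
noncomputable def augTo (G R : Type) [Group G] [CommRing R] : MonoidAlgebra ℤ G →+* R :=
  (MonoidAlgebra.lift ℤ R G (1 : G →* R)).toRingHom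

/-- The ring homomorphism `ℤ[G] → 𝔽₂`, sum of the coefficients modulo 2. -/
noncomputable def red (G : Type) [Group G] : MonoidAlgebra ℤ G →+* ZMod 2 := augTo G (ZMod 2)

/-- Homology of `X → Y → Z` at `Y`: kernel modulo image. -/
abbrev HomAt {X Y Z : Type} [AddCommGroup X] [AddCommGroup Y] [AddCommGroup Z]
    (f : X →+ Y) (g : Y →+ Z) : Type := g.ker ⧸ f.range.addSubgroupOf g.ker

/-- Dimension of the homology of `X → Y → Z` at `Y`, for vector spaces. -/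
noncomputable def homDim {K X Y Z : Type} [Field K] [AddCommGroup X] [AddCommGroup Y]
    [AddCommGroup Z] [Module K X] [Module K Y] [Module K Z]
    (f : X →ₗ[K] Y) (g : Y →ₗ[K] Z) : ℕ :=
  Module.finrank K (LinearMap.ker g ⧸ (LinearMap.range f).submoduleOf (LinearMap.ker g))

namespace FreeRes
variable {G : Type} [Group G] (P : FreeRes G)

/-- `H⁰(G; ℤ[G])`, computed from the resolution. -/
abbrev H0 : Type := (cob P.d1).ker
/-- `H¹(G; ℤ[G])`, computed from the resolution. -/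
abbrev H1 : Type := HomAt (cob P.d1) (cob P.d2)
/-- `H²(G; ℤ[G])`, computed from the resolution. -/
abbrev H2 : Type := HomAt (cob P.d2) (cob P.d3)
/-- `H³(G; ℤ[G])`, computed from the resolution. -/
abbrev H3 : Type := (Fin P.n3 → MonoidAlgebra ℤ G) ⧸ (cob P.d3).range

/-- The Euler characteristic of `G`. -/
def euler : ℤ := P.n0 - P.n1 + P.n2 - P.n3

/-- The boundary maps `v ↦ v d_i` of the complex `𝔽₂ ⊗ P`. -/
noncomputable def b1 : (Fin P.n1 → ZMod 2) →ₗ[ZMod 2] (Fin P.n0 → ZMod 2) :=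
  (P.d1.map (red G)).vecMulLinear
noncomputable def b2 : (Fin P.n2 → ZMod 2) →ₗ[ZMod 2] (Fin P.n1 → ZMod 2) :=
  (P.d2.map (red G)).vecMulLinear
noncomputable def b3 : (Fin P.n3 → ZMod 2) →ₗ[ZMod 2] (Fin P.n2 → ZMod 2) :=
  (P.d3.map (red G)).vecMulLinear

/-- `dim H₁(G; 𝔽₂)`, computed from the resolution. -/
noncomputable def betti1 : ℕ := homDim P.b2 P.b1
/-- `dim H₂(G; 𝔽₂)`, computed from the resolution. -/
noncomputable def betti2 : ℕ := homDim P.b3 P.b2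

/-- Given the resolution, `G` is a `PD₃`-group: `H^i(G; ℤ[G]) = 0` for `i ≠ 3` and
`H³(G; ℤ[G])` is infinite cyclic. -/
def IsPD3 : Prop :=
  Subsingleton P.H0 ∧ Subsingleton P.H1 ∧ Subsingleton P.H2 ∧ Nonempty (P.H3 ≃+ ℤ)

/-- `G` acts trivially (from the right) on `H³(G; ℤ[G])`. -/
def Orientable : Prop := ∀ (g : G) (c : Fin P.n3 → MonoidAlgebra ℤ G),
  (fun i => c i * MonoidAlgebra.of ℤ G g) - c ∈ (cob P.d3).range

end FreeRes
end W647.CC
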