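import Pool.Agent.W647.CC.Core4
import Pool.Agent.W647.CC.Defs
set_option autoImplicit false
set_option maxHeartbeats 1000000
set_option linter.unusedSectionVars false
namespace W647.CC
open Matrix

variable {G : Type} [Group G]

/-- twisted involution as a homomorphism to the opposite ring -/
noncomputable def sHom (w : G →* ℤ) : MonoidAlgebra ℤ G →ₐ[ℤ] (MonoidAlgebra ℤ G)ᵐᵒᵖ :=
  MonoidAlgebra.lift ℤ (MonoidAlgebra ℤ G)ᵐᵒᵖ G
    { toFun := fun g => MulOpposite.op (w g • MonoidAlgebra.of ℤ G g⁻¹)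
      map_one' := by
        rw [map_one, inv_one, map_one, one_smul, MulOpposite.op_one]
      map_mul' := by
        intro a b
        rw [← MulOpposite.op_mul, smul_mul_smul_comm, ← map_mul, ← map_mul, _root_.mul_inv_rev,
          map_mul w, map_mul w, mul_comm (w a) (w b)] }

noncomputable def st (w : G →* ℤ) (x : MonoidAlgebra ℤ G) : MonoidAlgebra ℤ G :=
  MulOpposite.unop (sHom w x)

lemma st_of (w : G →* ℤ) (g : G) :
    st w (MonoidAlgebra.of ℤ G g) = w g • MonoidAlgebra.of ℤ G g⁻¹ := by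
  unfold st sHom
  rw [MonoidAlgebra.lift_of]
  rfl

lemma st_add (w : G →* ℤ) (x y : MonoidAlgebra ℤ G) : st w (x + y) = st w x + st w y := by
  unfold st; rw [map_add, MulOpposite.unop_add]

lemma st_smul (w : G →* ℤ) (n : ℤ) (x : MonoidAlgebra ℤ G) : st w (n • x) = n • st w x := by
  unfold st; rw [map_smul, MulOpposite.unop_smul]

lemma st_mul (w : G →* ℤ) (x y : MonoidAlgebra ℤ G) : st w (x * y) = st w y * st w x := by
  unfold st; rw [map_mul, MulOpposite.unop_mul]

lemma w_inv (w : G →* ℤ) (g : G) : w g * w g⁻¹ = 1 := by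
  rw [← map_mul, mul_inv_cancel, map_one]

lemma w_inv_eq (w : G →* ℤ) (g : G) : w g⁻¹ = w g := by
  rcases Int.eq_one_or_neg_one_of_mul_eq_one (w_inv w g) with h | h
  · have := w_inv w g; rw [h, one_mul] at this; rw [h, this]
  · have := w_inv w g; rw [h] at this; rw [h]; linarith

lemma st_st (w : G →* ℤ) (x : MonoidAlgebra ℤ G) : st w (st w x) = x := by
  induction x using MonoidAlgebra.induction_on with
  | of g =>
    rw [st_of, st_smul, st_of, inv_inv, smul_smul, w_inv, one_smul]
  | add x y hx hy => rw [st_add, st_add, hx, hy]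
  | smul r x hx => rw [st_smul, st_smul, hx]

/-- the twisted star ring structure -/
@[reducible] noncomputable def stRing (w : G →* ℤ) : StarRing (MonoidAlgebra ℤ G) where
  star := st w
  star_involutive := st_st w
  star_mul := st_mul w
  star_add := st_add w

noncomputable def eps (G : Type) [Group G] : MonoidAlgebra ℤ G →+* ℤ :=
  (MonoidAlgebra.lift ℤ ℤ G (1 : G →* ℤ)).toRingHom

lemma eps_of (g : G) : eps G (MonoidAlgebra.of ℤ G g) = 1 := by
  unfold eps
  show (MonoidAlgebra.lift ℤ ℤ G (1 : G →* ℤ)) (MonoidAlgebra.of ℤ G g) = 1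
  rw [MonoidAlgebra.lift_of]; rfl

lemma red_of (g : G) : red G (MonoidAlgebra.of ℤ G g) = 1 := by
  unfold red augTo
  show (MonoidAlgebra.lift ℤ (ZMod 2) G (1 : G →* ZMod 2)) (MonoidAlgebra.of ℤ G g) = 1
  rw [MonoidAlgebra.lift_of]; rfl

lemma semilin {n : ℕ} (φ : (Fin n → MonoidAlgebra ℤ G) →+ ℤ)
    (h : ∀ (g : G) v, φ (MonoidAlgebra.of ℤ G g • v) = φ v) (a : MonoidAlgebra ℤ G)
    (v : Fin n → MonoidAlgebra ℤ G) : φ (a • v) = eps G a * φ v := by
  induction a using MonoidAlgebra.induction_on with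
  | of g => rw [h, eps_of, one_mul]
  | add x y hx hy => rw [add_smul, map_add, hx, hy, map_add, add_mul]
  | smul r x hx =>
    have e : (r • x) • v = r • (x • v) := by
      funext i; exact smul_mul_assoc _ _ _
    rw [e, map_zsmul, hx, map_zsmul, smul_eq_mul, smul_eq_mul, mul_assoc]

/-- extraction of the functional on `H³` and of the orientation character -/
lemma exists_eta (P : FreeRes G) (h3 : Nonempty (P.H3 ≃+ ℤ)) :
    ∃ (eta : (Fin P.n3 → MonoidAlgebra ℤ G) →+ ℤ) (w : G →* ℤ),
      (∃ v, eta v = 1) ∧ (∀ v, eta v = 0 ↔ ∃ b, v = P.d3 *ᵥ b) ∧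
      ∀ (g : G) v, eta (fun i => v i * MonoidAlgebra.of ℤ G g) = w g * eta v := by
  obtain ⟨e⟩ := h3
  let eta : (Fin P.n3 → MonoidAlgebra ℤ G) →+ ℤ :=
    e.toAddMonoidHom.comp (QuotientAddGroup.mk' (cob P.d3).range)
  have hs : Function.Surjective eta := e.surjective.comp (QuotientAddGroup.mk'_surjective _)
  have hk : ∀ v, eta v = 0 ↔ ∃ b, v = P.d3 *ᵥ b := by
    intro v
    show e (QuotientAddGroup.mk' (cob P.d3).range v) = 0 ↔ _
    rw [EmbeddingLike.map_eq_zero_iff, QuotientAddGroup.mk'_apply,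
      QuotientAddGroup.eq_zero_iff]
    constructor
    · rintro ⟨b, hb⟩; exact ⟨b, hb.symm⟩
    · rintro ⟨b, hb⟩; exact ⟨b, hb.symm⟩
  let R : G → (Fin P.n3 → MonoidAlgebra ℤ G) → (Fin P.n3 → MonoidAlgebra ℤ G) :=
    fun g v i => v i * MonoidAlgebra.of ℤ G g
  have Rsub : ∀ g v w, R g (v - w) = R g v - R g w := by
    intro g v w; funext i; exact sub_mul _ _ _
  have Rz : ∀ g (n : ℤ) v, R g (n • v) = n • R g v := by
    intro g n v; funext i; exact smul_mul_assoc n (v i) (MonoidAlgebra.of ℤ G g)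
  have Rk : ∀ g v, eta v = 0 → eta (R g v) = 0 := by
    intro g v hv
    obtain ⟨b, hb⟩ := (hk v).1 hv
    refine (hk _).2 ⟨fun i => b i * MonoidAlgebra.of ℤ G g, ?_⟩
    funext i
    show v i * MonoidAlgebra.of ℤ G g = _
    rw [hb]
    simp only [Matrix.mulVec, dotProduct, Finset.sum_mul, mul_assoc]
  obtain ⟨v1, hv1⟩ := hs 1
  have Rgen : ∀ g v, eta (R g v) = eta (R g v1) * eta v := by
    intro g v
    have h0 : eta (v - eta v • v1) = 0 := by
      rw [map_sub, map_zsmul, hv1]; simp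
    have h1 := Rk g _ h0
    rw [Rsub, Rz, map_sub, map_zsmul, sub_eq_zero, smul_eq_mul] at h1
    rw [h1, mul_comm]
  let w : G →* ℤ :=
    { toFun := fun g => eta (R g v1)
      map_one' := by
        have : R 1 v1 = v1 := by
          funext i
          show v1 i * MonoidAlgebra.of ℤ G 1 = v1 i
          rw [map_one, mul_one]
        rw [this, hv1]
      map_mul' := by
        intro g h
        have : R (g * h) v1 = R h (R g v1) := by
          funext i; show v1 i * _ = v1 i * _ * _; rw [map_mul, mul_assoc]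
        rw [this, Rgen h (R g v1), mul_comm] }
  exact ⟨eta, w, ⟨v1, hv1⟩, hk, fun g v => Rgen g v⟩

/-- Main theorem, up to the translation of the Euler characteristic. -/
theorem main1 (hsf : IsStablyFiniteRing (MonoidAlgebra ℤ G)) (P : FreeRes G)
    (h3 : Nonempty (P.H3 ≃+ ℤ)) :
    Subsingleton P.H0 ∧ Subsingleton P.H1 ∧ P.n1 + P.n3 ≤ P.n0 + P.n2 ∧
      (Subsingleton P.H2 ↔ P.n0 + P.n2 = P.n1 + P.n3) := by
  obtain ⟨eta, w, ⟨v1, hv1⟩, hk, hw⟩ := exists_eta P h3
  letI := stRing w
  have hstar : ∀ x : MonoidAlgebra ℤ G, star x = st w x := fun _ => rfl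
  let eta' : (Fin P.n3 → MonoidAlgebra ℤ G) →+ ℤ :=
    { toFun := fun v => eta (star v)
      map_zero' := by rw [star_zero, map_zero]
      map_add' := by intro x y; rw [star_add, map_add] }
  have he' : ∀ v, eta' v = eta (star v) := fun _ => rfl
  have hsm : ∀ (g : G) v, eta' (MonoidAlgebra.of ℤ G g • v) = eta' v := by
    intro g v
    have : star (MonoidAlgebra.of ℤ G g • v)
        = w g • (fun i => star v i * MonoidAlgebra.of ℤ G g⁻¹) := by
      funext i
      show star (MonoidAlgebra.of ℤ G g * v i) = w g • (star (v i) * MonoidAlgebra.of ℤ G g⁻¹)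
      rw [star_mul, hstar (MonoidAlgebra.of ℤ G g), st_of, mul_smul_comm]
    rw [he', this, map_zsmul, hw, he', smul_eq_mul, ← mul_assoc, w_inv, one_mul]
  let D : Data (MonoidAlgebra ℤ G) := ⟨eps G, P.n0, P.n1, P.n2, P.n3, P.d1, P.d2, P.d3, P.aug,
    semilin P.aug P.aug_smul,
    P.aug_surj 1, P.exact0, P.exact1, P.exact2, P.exact3, eta', semilin eta' hsm,
    ⟨star v1, by rw [he', star_star, hv1]⟩, by
      intro v
      rw [he', hk]
      constructor
      · rintro ⟨b, hb⟩
        refine ⟨star b, ?_⟩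
        rw [← Matrix.star_mulVec, ← hb, star_star]
      · rintro ⟨b, hb⟩
        refine ⟨star b, ?_⟩
        rw [hb, Matrix.star_vecMul, Matrix.conjTranspose_conjTranspose]⟩
  have key : ∀ {m n : ℕ} (M : Matrix (Fin m) (Fin n) (MonoidAlgebra ℤ G)) (c : Fin n → _),
      M *ᵥ c = 0 ↔ star c ᵥ* Mᴴ = 0 := by
    intro m n M c
    rw [← Matrix.star_mulVec, star_eq_zero]
  refine ⟨?_, ?_, ?_, ?_⟩
  · refine ⟨fun a b => ?_⟩
    have hz : ∀ a : (cob P.d1).ker, a = 0 := by
      rintro ⟨c, hc⟩
      have hc' : P.d1 *ᵥ c = 0 := hc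
      have := D.exact0 (star c) ((key _ _).1 hc')
      apply Subtype.ext
      show c = 0
      exact star_eq_zero.1 this
    rw [hz a, hz b]
  · rw [QuotientAddGroup.subsingleton_iff, AddSubgroup.addSubgroupOf_eq_top]
    intro c hc
    have hc' : P.d2 *ᵥ c = 0 := hc
    obtain ⟨b, hb⟩ := D.exact1 (star c) ((key _ _).1 hc')
    refine ⟨star b, ?_⟩
    show P.d1 *ᵥ star b = c
    have : star (star c) = star (b ᵥ* P.d1ᴴ) := by rw [hb]
    rw [star_star, Matrix.star_vecMul, Matrix.conjTranspose_conjTranspose] at this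
    exact this.symm
  · haveI := hsf
    exact D.rank_le
  · haveI := hsf
    have h5 := D.exact2_iff
    constructor
    · intro hsub
      rw [QuotientAddGroup.subsingleton_iff, AddSubgroup.addSubgroupOf_eq_top] at hsub
      apply h5.1
      intro v hv
      have h6 : P.d3 *ᵥ star v = 0 := by
        rw [key, star_star]; exact hv
      obtain ⟨b, hb⟩ := hsub (show star v ∈ (cob P.d3).ker from h6)
      refine ⟨star b, ?_⟩
      have hb' : P.d2 *ᵥ b = star v := hb
      show v = star b ᵥ* P.d2ᴴ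
      rw [← Matrix.star_mulVec, hb', star_star]
    · intro hn
      rw [QuotientAddGroup.subsingleton_iff, AddSubgroup.addSubgroupOf_eq_top]
      intro c hc
      have hc' : P.d3 *ᵥ c = 0 := hc
      obtain ⟨b, hb⟩ := h5.2 hn (star c) ((key _ _).1 hc')
      refine ⟨star b, ?_⟩
      show P.d2 *ᵥ star b = c
      have : star (star c) = star (b ᵥ* P.d2ᴴ) := by rw [hb]
      rw [star_star, Matrix.star_vecMul, Matrix.conjTranspose_conjTranspose] at this
      exact this.symm

end W647.CC
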